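import Pool.Agent.Helper98.TW.Stmts

/-!
Row CEC of the sheet TW: conditional expectations commute with the system.
-/

open MeasureTheory Filter Topology Finset
open scoped ComplexConjugate

namespace Pool.Agent.Helper73.TWR

open Pool.Agent.Helper98.TW

variable {Ω : Type} [m0 : MeasurableSpace Ω]

/-- complex multiplication as a real bilinear map -/
noncomputable def mulB : ℂ →L[ℝ] ℂ →L[ℝ] ℂ := ContinuousLinearMap.mul ℝ ℂ

/-- pull-out for complex functions -/
theorem pull {μ : Measure Ω} [IsProbabilityMeasure μ] {𝒜 : SA Ω}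
    {f g : Ω → ℂ} (hf : AM μ 𝒜 f) (hfg : Integrable (fun x => f x * g x) μ)
    (hg : Integrable g μ) :
    μ[fun x => f x * g x|𝒜] =ᵐ[μ] fun x => f x * (μ[g|𝒜]) x := by
  have h := condExp_bilin_of_aestronglyMeasurable_left (μ := μ) (m := 𝒜) mulB
    (f := f) (g := g) hf (by simpa [mulB] using hfg) hg
  simpa [mulB] using h

/-- the complex indicator of a set -/
noncomputable def ind (s : Set Ω) (x : Ω) : ℂ := s.indicator (fun _ => 1) x

theorem ind_mul (s : Set Ω) (g : Ω → ℂ) (x : Ω) : ind s x * g x = s.indicator g x := by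
  by_cases h : x ∈ s <;> simp [ind, h]

theorem am_ind (μ : Measure Ω) {𝒜 : SA Ω} {s : Set Ω} (hs : MeasurableSet[𝒜] s) :
    AM μ 𝒜 (ind s) := by
  have : StronglyMeasurable[𝒜] (ind s) := by
    have := (@stronglyMeasurable_const Ω ℂ 𝒜 _ 1).indicator hs
    exact this
  exact this.aestronglyMeasurable

theorem cec {μ : Measure Ω} [IsProbabilityMeasure μ] {R R' : Ω → Ω} {𝒜 : SA Ω}
    {F : Ω → ℂ} (hS : Sys μ R R') (hI : IA μ 𝒜 R R') (hF : Integrable F μ) :
    μ[fun x => F (R x)|𝒜] =ᵐ[μ] fun x => (μ[F|𝒜]) (R x) := by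
  have hle : @LE.le (MeasurableSpace Ω) _ 𝒜 m0 := hI.1
  have : IsFiniteMeasure (μ.trim hle) := isFiniteMeasure_trim hle
  have : SigmaFinite (μ.trim hle) := IsFiniteMeasure.toSigmaFinite _
  have hFR : Integrable (fun x => F (R x)) μ := hS.mp.integrable_comp_of_integrable hF
  set g : Ω → ℂ := μ[F|𝒜] with hg
  have hgi : Integrable g μ := integrable_condExp
  have hgA : AM μ 𝒜 g := stronglyMeasurable_condExp.aestronglyMeasurable
  have hgR : Integrable (fun x => g (R x)) μ := hS.mp.integrable_comp_of_integrable hgi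
  symm
  refine ae_eq_condExp_of_forall_setIntegral_eq hle hFR (fun s _ _ => hgR.integrableOn) ?_
    (hI.2 g hgA).1
  intro s hs _
  have hsm : MeasurableSet s := hle s hs
  -- both sides
  have hs1 : AM μ 𝒜 (fun x => ind s (R' x)) := (hI.2 _ (am_ind μ hs)).2
  have key : ∀ G : Ω → ℂ, Integrable G μ →
      ∫ x in s, G (R x) ∂μ = ∫ x, ind s (R' x) * G x ∂μ := by
    intro G hG
    have h1 : ∫ x in s, G (R x) ∂μ = ∫ x, ind s x * G (R x) ∂μ := by
      rw [← integral_indicator hsm]
      refine integral_congr_ae (Eventually.of_forall fun x => ?_)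
      exact (ind_mul s (fun x => G (R x)) x).symm
    have h2 : ∫ x, ind s x * G (R x) ∂μ = ∫ x, ind s (R' (R x)) * G (R x) ∂μ := by
      refine integral_congr_ae ?_
      filter_upwards [hS.l] with x hx
      rw [hx]
    have h3 : ∫ x, ind s (R' (R x)) * G (R x) ∂μ = ∫ x, ind s (R' x) * G x ∂μ := by
      have hm : AEStronglyMeasurable (fun x => ind s (R' x) * G x) μ :=
        (hs1.mono hle).mul hG.1
      have := hS.mp.map_eq
      conv_rhs => rw [← this]
      rw [integral_map hS.mp.measurable.aemeasurable (by rw [this]; exact hm)]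
    rw [h1, h2, h3]
  have hb : ∀ x, ‖ind s x‖ ≤ 1 := by
    intro x
    by_cases h : x ∈ s <;> simp [ind, h]
  have hi : ∀ G : Ω → ℂ, Integrable G μ → Integrable (fun x => ind s (R' x) * G x) μ := by
    intro G hG
    exact hG.bdd_mul (c := 1) (hs1.mono hle) (Eventually.of_forall fun x => hb _)
  show ∫ x in s, g (R x) ∂μ = ∫ x in s, F (R x) ∂μ
  rw [key g hgi, key F hF]
  have hp := pull (μ := μ) (𝒜 := 𝒜) hs1 (hi F hF) hF
  calc ∫ x, ind s (R' x) * g x ∂μ = ∫ x, (μ[fun x => ind s (R' x) * F x|𝒜]) x ∂μ :=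
        integral_congr_ae hp.symm
    _ = _ := integral_condExp hle

theorem st_CEC : ST_CEC := by
  intro Ω m0 μ _ R R' 𝒜 F hS hI hF
  exact cec hS hI hF

end Pool.Agent.Helper73.TWR
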