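import Pool.Agent.Helper98.TW.Basic
import Pool.Agent.Helper73.TWR.CEC

/-!
Tools on complex conditional expectations for the rows VF1 and VST of the sheet TW.
-/

set_option linter.unusedSectionVars false

open MeasureTheory Filter Topology Finset
open scoped ComplexConjugate

namespace Pool.Agent.Helper73.TWR

open Pool.Agent.Helper98.TW

variable {Ω : Type} [m0 : MeasurableSpace Ω] {μ : Measure Ω} [IsProbabilityMeasure μ]
  {𝒜 ℬ 𝒞 : SA Ω} {f g F G : Ω → ℂ}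

theorem ce_am : AM μ 𝒜 (μ[F|𝒜]) := stronglyMeasurable_condExp.aestronglyMeasurable

theorem ce_int : Integrable (μ[F|𝒜]) μ := integrable_condExp

theorem ce_meas (hA : Lm 𝒜) : Measurable (μ[F|𝒜]) :=
  (stronglyMeasurable_condExp.mono hA).measurable

/-- integrals against `𝒜`-measurable functions -/
theorem int_ce_left (hA : Lm 𝒜) (hg : AM μ 𝒜 g) (hgF : Integrable (fun x => g x * F x) μ)
    (hF : Integrable F μ) : ∫ x, g x * (μ[F|𝒜]) x ∂μ = ∫ x, g x * F x ∂μ := by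
  have hle : @LE.le (MeasurableSpace Ω) _ 𝒜 m0 := hA
  have : IsFiniteMeasure (μ.trim hle) := isFiniteMeasure_trim hle
  have : SigmaFinite (μ.trim hle) := IsFiniteMeasure.toSigmaFinite _
  have hp := pull (μ := μ) (𝒜 := 𝒜) hg hgF hF
  calc ∫ x, g x * (μ[F|𝒜]) x ∂μ = ∫ x, (μ[fun x => g x * F x|𝒜]) x ∂μ :=
        integral_congr_ae hp.symm
    _ = _ := integral_condExp hle

/-- bounded times integrable -/
theorem int_bdd (hg : AEStronglyMeasurable g μ) {B : ℝ} (hB : ∀ᵐ x ∂μ, ‖g x‖ ≤ B)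
    (hF : Integrable F μ) : Integrable (fun x => g x * F x) μ :=
  hF.bdd_mul (c := B) hg hB

theorem bf_int (hF : BF F) : Integrable F μ := by
  obtain ⟨h1, B, hB⟩ := hF
  exact Integrable.of_bound h1.aestronglyMeasurable B (Eventually.of_forall hB)

theorem norm_ind_le (s : Set Ω) (x : Ω) : ‖ind s x‖ ≤ 1 := by
  by_cases h : x ∈ s <;> simp [ind, h]

/-- uniqueness of the conditional expectation -/
theorem ce_unique (hA : Lm 𝒜) (hF : Integrable F μ) (hG : Integrable G μ) (hGA : AM μ 𝒜 G)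
    (h : ∀ s, MeasurableSet[𝒜] s → ∫ x, ind s x * G x ∂μ = ∫ x, ind s x * F x ∂μ) :
    G =ᵐ[μ] μ[F|𝒜] := by
  have hle : @LE.le (MeasurableSpace Ω) _ 𝒜 m0 := hA
  have : IsFiniteMeasure (μ.trim hle) := isFiniteMeasure_trim hle
  have : SigmaFinite (μ.trim hle) := IsFiniteMeasure.toSigmaFinite _
  refine ae_eq_condExp_of_forall_setIntegral_eq hle hF (fun s _ _ => hG.integrableOn) ?_ hGA
  intro s hs _
  have h1 : ∀ H : Ω → ℂ, ∫ x in s, H x ∂μ = ∫ x, ind s x * H x ∂μ := by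
    intro H
    rw [← integral_indicator (hle s hs)]
    exact integral_congr_ae (Eventually.of_forall fun x => (ind_mul s H x).symm)
  rw [h1, h1, h s hs]

theorem ind_meas (hA : Lm 𝒜) {s : Set Ω} (hs : MeasurableSet[𝒜] s) : Measurable (ind s) := by
  have h1 : MeasurableSet s := hA s hs
  exact measurable_const.indicator h1

/-- tower property for `LQ` -/
theorem ce_tower (hA : Lm 𝒜) (hB : Lm ℬ) (hq : LQ μ 𝒜 ℬ) (hF : Integrable F μ) :
    μ[μ[F|ℬ]|𝒜] =ᵐ[μ] μ[F|𝒜] := by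
  symm
  refine ce_unique hA ce_int ce_int ce_am fun s hs => ?_
  have hb : ∀ᵐ x ∂μ, ‖ind s x‖ ≤ 1 := Eventually.of_forall (norm_ind_le s)
  have hm : AEStronglyMeasurable (ind s) μ := (ind_meas hA hs).aestronglyMeasurable
  rw [int_ce_left hA (am_ind μ hs) (int_bdd hm hb hF) hF,
    int_ce_left hB (hq _ (am_ind μ hs)) (int_bdd hm hb hF) hF]

theorem ce_of_am (hA : Lm 𝒜) (hF : Integrable F μ) (h : AM μ 𝒜 F) : μ[F|𝒜] =ᵐ[μ] F :=
  (ce_unique hA hF hF h fun _ _ => rfl).symm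

theorem ce_congr (h : F =ᵐ[μ] G) : μ[F|𝒜] =ᵐ[μ] μ[G|𝒜] := condExp_congr_ae h

theorem ce_sub (hF : Integrable F μ) (hG : Integrable G μ) :
    μ[fun x => F x - G x|𝒜] =ᵐ[μ] fun x => (μ[F|𝒜]) x - (μ[G|𝒜]) x := condExp_sub hF hG 𝒜

theorem ce_add (hF : Integrable F μ) (hG : Integrable G μ) :
    μ[fun x => F x + G x|𝒜] =ᵐ[μ] fun x => (μ[F|𝒜]) x + (μ[G|𝒜]) x := condExp_add hF hG 𝒜

/-- bound for conditional expectations -/
theorem ce_bdd (hA : Lm 𝒜) (hF : Integrable F μ) {B : ℝ} (hB : ∀ᵐ x ∂μ, ‖F x‖ ≤ B) :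
    ∀ᵐ x ∂μ, ‖(μ[F|𝒜]) x‖ ≤ B := by
  have hle : @LE.le (MeasurableSpace Ω) _ 𝒜 m0 := hA
  have : IsFiniteMeasure (μ.trim hle) := isFiniteMeasure_trim hle
  have : SigmaFinite (μ.trim hle) := IsFiniteMeasure.toSigmaFinite _
  have h1 : (fun x => ‖(μ[F|𝒜]) x‖) ≤ᵐ[μ] μ[(fun x => ‖F x‖)|𝒜] := norm_condExp_le F
  have h2 : μ[(fun x => ‖F x‖)|𝒜] ≤ᵐ[μ] μ[(fun _ => B)|𝒜] :=
    condExp_mono hF.norm (integrable_const B) hB
  have h3 : μ[(fun _ : Ω => B)|𝒜] = fun _ => B := condExp_const hle B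
  filter_upwards [h1, h2] with x hx1 hx2
  rw [h3] at hx2
  exact hx1.trans hx2

/-- bounded `𝒜`-measurable version of the conditional expectation -/
theorem ce_bf (hA : Lm 𝒜) (hF : BF F) : ∃ G : Ω → ℂ, BF G ∧ AM μ 𝒜 G ∧ G =ᵐ[μ] μ[F|𝒜] := by
  have hi : Integrable F μ := bf_int hF
  obtain ⟨hFm, B, hB⟩ := hF
  have hb := ce_bdd hA hi (Eventually.of_forall hB)
  set K : Set Ω := {x | ‖(μ[F|𝒜]) x‖ ≤ B} with hK
  have hKm : MeasurableSet K := measurableSet_le (ce_meas hA).norm measurable_const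
  have hae : K.indicator (μ[F|𝒜]) =ᵐ[μ] μ[F|𝒜] := by
    filter_upwards [hb] with x hx
    exact Set.indicator_of_mem (show x ∈ K from hx) _
  refine ⟨K.indicator (μ[F|𝒜]), ⟨(ce_meas hA).indicator hKm, max B 0, fun x => ?_⟩, ?_, hae⟩
  · by_cases h : x ∈ K
    · rw [Set.indicator_of_mem h]
      exact le_max_of_le_left h
    · rw [Set.indicator_of_notMem h]
      simp
  · exact am_congr ce_am hae.symm

/-- a bounded version of an a.e. bounded function -/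
theorem exists_bf (hF : AEStronglyMeasurable F μ) {B : ℝ} (hB : ∀ᵐ x ∂μ, ‖F x‖ ≤ B) :
    ∃ G : Ω → ℂ, BF G ∧ G =ᵐ[μ] F := by
  set F₀ := hF.mk F with hF₀
  have hm : Measurable F₀ := hF.stronglyMeasurable_mk.measurable
  set K : Set Ω := {x | ‖F₀ x‖ ≤ B} with hK
  have hKm : MeasurableSet K := measurableSet_le hm.norm measurable_const
  refine ⟨K.indicator F₀, ⟨hm.indicator hKm, max B 0, fun x => ?_⟩, ?_⟩
  · by_cases h : x ∈ K
    · rw [Set.indicator_of_mem h]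
      exact le_max_of_le_left h
    · rw [Set.indicator_of_notMem h]
      simp
  · filter_upwards [hB, hF.ae_eq_mk] with x hx hx2
    have : x ∈ K := by
      show ‖hF.mk F x‖ ≤ B
      rw [← hx2]; exact hx
    rw [Set.indicator_of_mem this]
    exact hx2.symm

theorem bf_conj (hF : BF F) : BF (fun x => conj (F x)) := by
  obtain ⟨h1, B, hB⟩ := hF
  exact ⟨Complex.continuous_conj.measurable.comp h1, B, fun x => by
    rw [RCLike.norm_conj]; exact hB x⟩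

theorem bf_mul (hF : BF F) (hG : BF G) : BF (fun x => F x * G x) := by
  obtain ⟨h1, B, hB⟩ := hF
  obtain ⟨h2, B', hB'⟩ := hG
  refine ⟨h1.mul h2, B * B', fun x => ?_⟩
  rw [norm_mul]
  exact mul_le_mul (hB x) (hB' x) (norm_nonneg _) ((norm_nonneg _).trans (hB x))

theorem bf_sub (hF : BF F) (hG : BF G) : BF (fun x => F x - G x) := by
  obtain ⟨h1, B, hB⟩ := hF
  obtain ⟨h2, B', hB'⟩ := hG
  refine ⟨h1.sub h2, B + B', fun x => ?_⟩
  exact (norm_sub_le _ _).trans (add_le_add (hB x) (hB' x))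

theorem bf_add (hF : BF F) (hG : BF G) : BF (fun x => F x + G x) := by
  obtain ⟨h1, B, hB⟩ := hF
  obtain ⟨h2, B', hB'⟩ := hG
  refine ⟨h1.add h2, B + B', fun x => ?_⟩
  exact (norm_add_le _ _).trans (add_le_add (hB x) (hB' x))

theorem bf_ind (hA : Lm 𝒜) {s : Set Ω} (hs : MeasurableSet[𝒜] s) : BF (ind s) :=
  ⟨ind_meas hA hs, 1, norm_ind_le s⟩

theorem bf_zero : BF (fun _ : Ω => (0 : ℂ)) := ⟨measurable_const, 0, fun _ => by simp⟩

/-- unimodular functions have bounded versions; integrability -/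
theorem uf_bdd (h : UF μ F) : ∀ᵐ x ∂μ, ‖F x‖ ≤ 1 := by
  filter_upwards [h.2] with x hx
  exact hx.le

theorem uf_int (h : UF μ F) : Integrable F μ :=
  Integrable.of_bound h.1.aestronglyMeasurable 1 (uf_bdd h)

/-- vanishing of conditional expectations by test functions -/
theorem ce_zero (hA : Lm 𝒜) (hF : Integrable F μ)
    (h : ∀ s, MeasurableSet[𝒜] s → ∫ x, ind s x * F x ∂μ = 0) : μ[F|𝒜] =ᵐ[μ] 0 := by
  have h1 : (fun _ : Ω => (0 : ℂ)) =ᵐ[μ] μ[F|𝒜] := by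
    refine ce_unique hA hF (integrable_const 0) (am_const 0) fun s hs => ?_
    rw [h s hs]
    simp
  exact h1.symm

/-- if the conditional expectation vanishes then so do the integrals -/
theorem int_zero_of_ce (hA : Lm 𝒜) (hg : AM μ 𝒜 g) (hgF : Integrable (fun x => g x * F x) μ)
    (hF : Integrable F μ) (h : μ[F|𝒜] =ᵐ[μ] 0) : ∫ x, g x * F x ∂μ = 0 := by
  rw [← int_ce_left hA hg hgF hF]
  have : (fun x => g x * (μ[F|𝒜]) x) =ᵐ[μ] fun _ => 0 := by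
    filter_upwards [h] with x hx
    rw [hx]; simp
  rw [integral_congr_ae this]; simp

/-- `E(gF|𝒜) = 0` if `g` is `𝒜`-measurable and `E(F|𝒜) = 0` -/
theorem ce_mul_zero (hg : AM μ 𝒜 g) (hgF : Integrable (fun x => g x * F x) μ)
    (hF : Integrable F μ) (h : μ[F|𝒜] =ᵐ[μ] 0) : μ[fun x => g x * F x|𝒜] =ᵐ[μ] 0 := by
  filter_upwards [pull hg hgF hF, h] with x hx1 hx2
  rw [hx1, hx2]; simp

/-- `E(.|𝒜) = 0` if `E(.|ℬ) = 0` and `𝒜` is contained in `ℬ` -/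
theorem ce_zero_lq (hA : Lm 𝒜) (hB : Lm ℬ) (hq : LQ μ 𝒜 ℬ) (hF : Integrable F μ)
    (h : μ[F|ℬ] =ᵐ[μ] 0) : μ[F|𝒜] =ᵐ[μ] 0 := by
  have h1 := ce_tower hA hB hq hF
  have h2 : μ[μ[F|ℬ]|𝒜] =ᵐ[μ] μ[(fun _ => (0 : ℂ))|𝒜] := ce_congr h
  have h3 : μ[(fun _ : Ω => (0 : ℂ))|𝒜] = 0 := by
    exact condExp_zero
  filter_upwards [h1, h2] with x hx1 hx2
  rw [← hx1, hx2, h3]

/-- square integrals -/
theorem ce_sq_le (hF : MemLp F 2 μ) :
    ∫ x, ‖(μ[F|𝒜]) x‖ ^ 2 ∂μ ≤ ∫ x, ‖F x‖ ^ 2 ∂μ := by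
  have h1 : Integrable (fun x => ‖F x‖ ^ (2 : ℝ)) μ := by
    have := hF.integrable_norm_rpow (by simp) (by simp)
    simpa using this
  have := integral_norm_condExp_rpow_le (m := 𝒜) (μ := μ) (p := 2) (by norm_num) h1
  simpa using this

theorem bf_memLp (hF : BF F) : MemLp F 2 μ := by
  obtain ⟨h1, B, hB⟩ := hF
  exact MemLp.of_bound h1.aestronglyMeasurable B (Eventually.of_forall hB)

theorem ce_memLp (hF : MemLp F 2 μ) : MemLp (μ[F|𝒜]) 2 μ := hF.condExp (by norm_num)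

theorem l2_mul (hF : MemLp F 2 μ) (hG : MemLp G 2 μ) : Integrable (fun x => F x * G x) μ := by
  have := hF.integrable_mul hG
  exact this

theorem memLp_conj (hF : MemLp F 2 μ) : MemLp (fun x => conj (F x)) 2 μ := hF.star

/-- the distance to the conditional expectation -/
theorem sub_ce_sq (hA : Lm 𝒜) (hF : MemLp F 2 μ) :
    ∫ x, ‖F x - (μ[F|𝒜]) x‖ ^ 2 ∂μ ≤ ∫ x, ‖F x‖ ^ 2 ∂μ := by
  set E := μ[F|𝒜] with hE
  have hEm : MemLp E 2 μ := ce_memLp hF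
  have hcE : MemLp (fun x => conj (E x)) 2 μ := memLp_conj hEm
  have hFi : Integrable F μ := hF.integrable (by norm_num)
  have h1 : ∫ x, conj (E x) * E x ∂μ = ∫ x, conj (E x) * F x ∂μ :=
    int_ce_left hA (am_conj ce_am) (l2_mul hcE hF) hFi
  have h2 : ∀ x, (((‖F x - E x‖ ^ 2 : ℝ)) : ℂ) =
      ((‖F x‖ ^ 2 : ℝ) : ℂ) - conj (E x) * F x - conj (conj (E x) * F x) + conj (E x) * E x := by
    intro x
    have e1 : ((‖F x - E x‖ ^ 2 : ℝ) : ℂ) = (F x - E x) * conj (F x - E x) := by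
      rw [Complex.mul_conj, Complex.normSq_eq_norm_sq]
    have e2 : ((‖F x‖ ^ 2 : ℝ) : ℂ) = F x * conj (F x) := by
      rw [Complex.mul_conj, Complex.normSq_eq_norm_sq]
    rw [e1, e2, map_mul, Complex.conj_conj, map_sub]; ring
  have iF : Integrable (fun x => ‖F x‖ ^ 2) μ := hF.integrable_norm_pow (by norm_num)
  have iFE : Integrable (fun x => ‖F x - E x‖ ^ 2) μ :=
    (hF.sub hEm).integrable_norm_pow (by norm_num)
  have iE : Integrable (fun x => ‖E x‖ ^ 2) μ := hEm.integrable_norm_pow (by norm_num)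
  have h3 : ((∫ x, ‖F x - E x‖ ^ 2 ∂μ : ℝ) : ℂ) = ((∫ x, ‖F x‖ ^ 2 ∂μ : ℝ) : ℂ) -
      ((∫ x, ‖E x‖ ^ 2 ∂μ : ℝ) : ℂ) := by
    rw [← integral_complex_ofReal, ← integral_complex_ofReal, ← integral_complex_ofReal]
    rw [integral_congr_ae (Eventually.of_forall h2)]
    have j1 : Integrable (fun x => conj (E x) * F x) μ := l2_mul hcE hF
    have j2 : Integrable (fun x => conj (conj (E x) * F x)) μ := by
      have := (Complex.conjCLE : ℂ →L[ℝ] ℂ).integrable_comp j1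
      simpa using this
    have j3 : Integrable (fun x => conj (E x) * E x) μ := l2_mul hcE hEm
    have j0 : Integrable (fun x => ((‖F x‖ ^ 2 : ℝ) : ℂ)) μ := iF.ofReal
    have j01 : Integrable (fun x => ((‖F x‖ ^ 2 : ℝ) : ℂ) - conj (E x) * F x) μ := j0.sub j1
    have j012 : Integrable (fun x => ((‖F x‖ ^ 2 : ℝ) : ℂ) - conj (E x) * F x -
      conj (conj (E x) * F x)) μ := j01.sub j2
    rw [integral_add j012 j3, integral_sub j01 j2, integral_sub j0 j1, integral_conj, ← h1]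
    have e3 : ∫ x, conj (E x) * E x ∂μ = ∫ x, ((‖E x‖ ^ 2 : ℝ) : ℂ) ∂μ := by
      refine integral_congr_ae (Eventually.of_forall fun x => ?_)
      show conj (E x) * E x = _
      rw [mul_comm, Complex.mul_conj, Complex.normSq_eq_norm_sq]
    have e4 : conj (∫ x, ((‖E x‖ ^ 2 : ℝ) : ℂ) ∂μ) = ∫ x, ((‖E x‖ ^ 2 : ℝ) : ℂ) ∂μ := by
      rw [integral_complex_ofReal, Complex.conj_ofReal]
    rw [e3, e4]
    ring
  have h4 : ∫ x, ‖F x - E x‖ ^ 2 ∂μ = ∫ x, ‖F x‖ ^ 2 ∂μ - ∫ x, ‖E x‖ ^ 2 ∂μ := by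
    exact_mod_cast h3
  rw [h4]
  have : 0 ≤ ∫ x, ‖E x‖ ^ 2 ∂μ := integral_nonneg fun x => by positivity
  linarith

/-! ### almost everywhere bounded functions -/

/-- measurable functions which are bounded almost everywhere -/
def AB (μ : Measure Ω) (F : Ω → ℂ) : Prop :=
  AEStronglyMeasurable F μ ∧ ∃ B : ℝ, ∀ᵐ x ∂μ, ‖F x‖ ≤ B

theorem AB.int (h : AB μ F) : Integrable F μ := by
  obtain ⟨h1, B, hB⟩ := h
  exact Integrable.of_bound h1 B hB

theorem AB.memLp (h : AB μ F) : MemLp F 2 μ := by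
  obtain ⟨h1, B, hB⟩ := h
  exact MemLp.of_bound h1 B hB

theorem AB.mul (h : AB μ F) (h' : AB μ G) : AB μ (fun x => F x * G x) := by
  obtain ⟨h1, B, hB⟩ := h
  obtain ⟨h2, B', hB'⟩ := h'
  refine ⟨h1.mul h2, B * B', ?_⟩
  filter_upwards [hB, hB'] with x hx hx'
  rw [norm_mul]
  exact mul_le_mul hx hx' (norm_nonneg _) ((norm_nonneg _).trans hx)

theorem AB.sub (h : AB μ F) (h' : AB μ G) : AB μ (fun x => F x - G x) := by
  obtain ⟨h1, B, hB⟩ := h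
  obtain ⟨h2, B', hB'⟩ := h'
  refine ⟨h1.sub h2, B + B', ?_⟩
  filter_upwards [hB, hB'] with x hx hx'
  exact (norm_sub_le _ _).trans (add_le_add hx hx')

theorem AB.add (h : AB μ F) (h' : AB μ G) : AB μ (fun x => F x + G x) := by
  obtain ⟨h1, B, hB⟩ := h
  obtain ⟨h2, B', hB'⟩ := h'
  refine ⟨h1.add h2, B + B', ?_⟩
  filter_upwards [hB, hB'] with x hx hx'
  exact (norm_add_le _ _).trans (add_le_add hx hx')

theorem AB.conj (h : AB μ F) : AB μ (fun x => conj (F x)) := by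
  obtain ⟨h1, B, hB⟩ := h
  refine ⟨Complex.continuous_conj.comp_aestronglyMeasurable h1, B, ?_⟩
  filter_upwards [hB] with x hx
  rw [RCLike.norm_conj]; exact hx

theorem AB.congr (h : AB μ F) (hFG : F =ᵐ[μ] G) : AB μ G := by
  obtain ⟨h1, B, hB⟩ := h
  refine ⟨h1.congr hFG, B, ?_⟩
  filter_upwards [hB, hFG] with x hx hx2
  rw [← hx2]; exact hx

theorem AB.ce (hA : Lm 𝒜) (h : AB μ F) : AB μ (μ[F|𝒜]) := by
  obtain ⟨B, hB⟩ := h.2
  exact ⟨(ce_meas hA).aestronglyMeasurable, B, ce_bdd hA h.int hB⟩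

theorem _root_.Pool.Agent.Helper98.TW.UF.ab (h : UF μ F) : AB μ F :=
  ⟨h.1.aestronglyMeasurable, 1, uf_bdd h⟩

theorem _root_.Pool.Agent.Helper98.TW.BF.ab (h : BF F) : AB μ F := by
  obtain ⟨h1, B, hB⟩ := h
  exact ⟨h1.aestronglyMeasurable, B, Eventually.of_forall hB⟩

theorem ab_const (c : ℂ) : AB μ (fun _ : Ω => c) :=
  ⟨aestronglyMeasurable_const, ‖c‖, Eventually.of_forall fun _ => le_rfl⟩

theorem ab_ind (hA : Lm 𝒜) {s : Set Ω} (hs : MeasurableSet[𝒜] s) : AB μ (ind s) :=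
  (bf_ind hA hs).ab

theorem AB.bf (h : AB μ F) : ∃ G : Ω → ℂ, BF G ∧ G =ᵐ[μ] F := by
  obtain ⟨h1, B, hB⟩ := h
  exact exists_bf h1 hB

theorem AB.comp {Ω' : Type} [MeasurableSpace Ω'] {ν : Measure Ω'} {π : Ω' → Ω}
    (h : AB μ F) (hπ : MeasurePreserving π ν μ) : AB ν (fun x => F (π x)) := by
  obtain ⟨h1, B, hB⟩ := h
  refine ⟨h1.comp_quasiMeasurePreserving hπ.quasiMeasurePreserving, B, ?_⟩
  exact hπ.quasiMeasurePreserving.ae hB

theorem AB.int_mul (h : AB μ g) (hF : Integrable F μ) : Integrable (fun x => g x * F x) μ := by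
  obtain ⟨h1, B, hB⟩ := h
  exact int_bdd h1 hB hF

theorem int_ce (hA : Lm 𝒜) (hg : AM μ 𝒜 g) (hgb : AB μ g) (hF : Integrable F μ) :
    ∫ x, g x * (μ[F|𝒜]) x ∂μ = ∫ x, g x * F x ∂μ :=
  int_ce_left hA hg (hgb.int_mul hF) hF

/-- pull-out for bounded functions -/
theorem pullb (hg : AM μ 𝒜 g) (hgb : AB μ g) (hF : Integrable F μ) :
    μ[fun x => g x * F x|𝒜] =ᵐ[μ] fun x => g x * (μ[F|𝒜]) x :=
  pull hg (hgb.int_mul hF) hF

/-- conditional expectations are symmetric -/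
theorem ce_symm (hA : Lm 𝒜) (hF : AB μ F) (hG : AB μ G) :
    ∫ x, (μ[F|𝒜]) x * G x ∂μ = ∫ x, F x * (μ[G|𝒜]) x ∂μ := by
  have h1 : ∫ x, (μ[F|𝒜]) x * G x ∂μ = ∫ x, (μ[F|𝒜]) x * (μ[G|𝒜]) x ∂μ :=
    (int_ce hA ce_am (hF.ce hA) hG.int).symm
  have h2 : ∫ x, (μ[G|𝒜]) x * (μ[F|𝒜]) x ∂μ = ∫ x, (μ[G|𝒜]) x * F x ∂μ :=
    int_ce hA ce_am (hG.ce hA) hF.int
  have h3 : ∀ u v : Ω → ℂ, ∫ x, u x * v x ∂μ = ∫ x, v x * u x ∂μ := fun u v => by
    refine integral_congr_ae (Eventually.of_forall fun x => ?_)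
    exact mul_comm _ _
  rw [h1, h3, h2, h3]

end Pool.Agent.Helper73.TWR
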