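import Pool.Agent.Helper98.TW.Stmts
import Pool.Agent.Helper73.TWR.CEC

/-!
Row IAJ of the sheet TW: joins of invariant sigma algebras.
-/

open MeasureTheory Filter Topology Finset
open scoped ComplexConjugate

namespace Pool.Agent.Helper73.TWR

open Pool.Agent.Helper98.TW

theorem limU {Ω : Type} {m : MeasurableSpace Ω} {g : ℕ → Ω → ℂ}
    (hG : ∀ n, StronglyMeasurable (g n)) :
    StronglyMeasurable (fun x => limUnder atTop (fun n => g n x)) :=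
  StronglyMeasurable.limUnder hG

theorem sm_approx {Ω : Type} {m : MeasurableSpace Ω} {g : Ω → ℂ} (hg : StronglyMeasurable g) :
    ∃ (F : ℕ → Finset ℂ) (S : ℕ → ℂ → Set Ω), (∀ n y, MeasurableSet (S n y)) ∧
      ∀ x, Tendsto (fun n => ∑ y ∈ F n, y * ind (S n y) x) atTop (𝓝 (g x)) := by
  refine ⟨fun n => (hg.approx n).range, fun n y => (hg.approx n) ⁻¹' {y},
    fun n y => SimpleFunc.measurableSet_preimage _ _, fun x => ?_⟩
  have h1 : ∀ n, hg.approx n x =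
      ∑ y ∈ (hg.approx n).range, y * ind ((hg.approx n) ⁻¹' {y}) x := by
    intro n
    rw [sum_eq_single (hg.approx n x)]
    · simp [ind, Set.indicator]
    · intro b _ hb
      have : x ∉ (hg.approx n) ⁻¹' {b} := by
        intro h
        exact hb h.symm
      simp [ind, this]
    · intro hx
      exact absurd (SimpleFunc.mem_range_self _ _) hx
  have h2 := hg.tendsto_approx x
  refine h2.congr fun n => ?_
  exact h1 n

variable {Ω : Type} [m0 : MeasurableSpace Ω]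

/-- limits of `𝒜`-measurable functions -/
theorem am_tendsto {μ : Measure Ω} {𝒜 : SA Ω} {g : ℕ → Ω → ℂ} {f : Ω → ℂ}
    (hg : ∀ n, AM μ 𝒜 (g n)) (h : ∀ᵐ x ∂μ, Tendsto (fun n => g n x) atTop (𝓝 (f x))) :
    AM μ 𝒜 f := by
  have hG : ∀ n, StronglyMeasurable[𝒜] ((hg n).mk (g n)) := fun n => (hg n).stronglyMeasurable_mk
  refine ⟨fun x => limUnder atTop (fun n => (hg n).mk (g n) x), ?_, ?_⟩
  · exact @limU Ω 𝒜 _ hG
  · have hae : ∀ᵐ x ∂μ, ∀ n, g n x = (hg n).mk (g n) x :=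
      ae_all_iff.2 fun n => (hg n).ae_eq_mk
    filter_upwards [h, hae] with x hx hx'
    symm
    apply Tendsto.limUnder_eq
    simpa only [← hx'] using hx

theorem am_mono {μ : Measure Ω} {𝒜 ℬ : SA Ω} {f : Ω → ℂ}
    (h : @LE.le (MeasurableSpace Ω) _ 𝒜 ℬ) (hf : AM μ 𝒜 f) : AM μ ℬ f :=
  AEStronglyMeasurable.mono h hf

theorem am_const {μ : Measure Ω} {𝒜 : SA Ω} (c : ℂ) : AM μ 𝒜 (fun _ => c) :=
  aestronglyMeasurable_const

theorem am_sum {ι : Type} {μ : Measure Ω} {𝒜 : SA Ω} (s : Finset ι) {f : ι → Ω → ℂ}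
    (h : ∀ i ∈ s, AM μ 𝒜 (f i)) : AM μ 𝒜 (fun x => ∑ i ∈ s, f i x) := by
  classical
  induction s using Finset.induction_on with
  | empty => simpa using am_const (μ := μ) (𝒜 := 𝒜) 0
  | insert a s ha ih =>
    have h1 := (h a (mem_insert_self _ _)).add (ih fun i hi => h i (mem_insert_of_mem hi))
    refine h1.congr (Eventually.of_forall fun x => ?_)
    simp [sum_insert ha]

theorem am_prod {ι : Type} {μ : Measure Ω} {𝒜 : SA Ω} (s : Finset ι) {f : ι → Ω → ℂ}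
    (h : ∀ i ∈ s, AM μ 𝒜 (f i)) : AM μ 𝒜 (fun x => ∏ i ∈ s, f i x) := by
  classical
  induction s using Finset.induction_on with
  | empty => simpa using am_const (μ := μ) (𝒜 := 𝒜) 1
  | insert a s ha ih =>
    have h1 := (h a (mem_insert_self _ _)).mul (ih fun i hi => h i (mem_insert_of_mem hi))
    refine h1.congr (Eventually.of_forall fun x => ?_)
    simp [prod_insert ha]

theorem le_jo_left (𝒜 ℬ : SA Ω) : @LE.le (MeasurableSpace Ω) _ 𝒜 (jo 𝒜 ℬ) :=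
  @le_sup_left (MeasurableSpace Ω) _ 𝒜 ℬ

theorem le_jo_right (𝒜 ℬ : SA Ω) : @LE.le (MeasurableSpace Ω) _ ℬ (jo 𝒜 ℬ) :=
  @le_sup_right (MeasurableSpace Ω) _ 𝒜 ℬ

theorem jo_le {𝒜 ℬ 𝒞 : SA Ω} (h1 : @LE.le (MeasurableSpace Ω) _ 𝒜 𝒞)
    (h2 : @LE.le (MeasurableSpace Ω) _ ℬ 𝒞) : @LE.le (MeasurableSpace Ω) _ (jo 𝒜 ℬ) 𝒞 :=
  @sup_le (MeasurableSpace Ω) _ 𝒜 ℬ 𝒞 h1 h2

theorem sg_le {Φ : Set (Ω → ℂ)} {𝒞 : SA Ω} (h : ∀ φ ∈ Φ, Measurable[𝒞] φ) :
    @LE.le (MeasurableSpace Ω) _ (sg Φ) 𝒞 :=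
  iSup₂_le fun φ hφ => (h φ hφ).comap_le

theorem meas_sg {Φ : Set (Ω → ℂ)} {φ : Ω → ℂ} (hφ : φ ∈ Φ) : Measurable[sg Φ] φ := by
  have h1 : @LE.le (MeasurableSpace Ω) _
      (MeasurableSpace.comap φ (inferInstance : MeasurableSpace ℂ)) (sg Φ) :=
    le_iSup₂_of_le φ hφ le_rfl
  exact measurable_iff_comap_le.2 h1

theorem am_sg {μ : Measure Ω} {Φ : Set (Ω → ℂ)} {φ : Ω → ℂ} (hφ : φ ∈ Φ) : AM μ (sg Φ) φ :=
  (meas_sg hφ).stronglyMeasurable.aestronglyMeasurable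

theorem am_sets {μ : Measure Ω} {𝒞 : SA Ω} {h : Ω → ℂ} (hh : AM μ 𝒞 h) {s : Set ℂ}
    (hs : MeasurableSet s) : AM μ 𝒞 (ind (h ⁻¹' s)) := by
  have h1 : MeasurableSet[𝒞] ((hh.mk h) ⁻¹' s) := hh.stronglyMeasurable_mk.measurable hs
  refine (am_ind μ h1).congr ?_
  filter_upwards [hh.ae_eq_mk] with x hx
  have h2 : x ∈ (hh.mk h) ⁻¹' s ↔ x ∈ h ⁻¹' s := by
    simp only [Set.mem_preimage, hx]
  by_cases h3 : x ∈ h ⁻¹' s
  · simp only [ind, Set.indicator_of_mem h3, Set.indicator_of_mem (h2.2 h3)]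
  · simp only [ind, Set.indicator_of_notMem h3, Set.indicator_of_notMem (fun h => h3 (h2.1 h))]

/-- the sets whose indicator is almost everywhere `𝒞`-measurable -/
@[reducible] def es (μ : Measure Ω) (𝒞 : SA Ω) : MeasurableSpace Ω where
  MeasurableSet' s := AM μ 𝒞 (ind s)
  measurableSet_empty := am_ind μ (@MeasurableSet.empty Ω 𝒞)
  measurableSet_compl s hs := by
    have h1 : AM μ 𝒞 (fun x => 1 - ind s x) := by
      have h2 : AM μ 𝒞 (fun _ => (1 : ℂ)) := aestronglyMeasurable_const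
      exact h2.sub hs
    refine h1.congr (Eventually.of_forall fun x => ?_)
    by_cases h : x ∈ s <;> simp [ind, h]
  measurableSet_iUnion f hf := by
    have h1 : ∀ n : ℕ, AM μ 𝒞 (fun x => 1 - ∏ i ∈ range n, (1 - ind (f i) x)) := by
      intro n
      have h0 : AM μ 𝒞 (fun _ => (1 : ℂ)) := aestronglyMeasurable_const
      have h00 : AM μ 𝒞 (fun x => ∏ i ∈ range n, (1 - ind (f i) x)) := by
        exact am_prod _ fun i _ => h0.sub (hf i)
      exact h0.sub h00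
    refine am_tendsto h1 (Eventually.of_forall fun x => ?_)
    by_cases h : ∃ i, x ∈ f i
    · obtain ⟨i, hi⟩ := h
      have h2 : ind (⋃ i, f i) x = 1 := by
        have : x ∈ ⋃ i, f i := Set.mem_iUnion.2 ⟨i, hi⟩
        simp [ind, Set.indicator, this]
      rw [h2]
      refine tendsto_const_nhds.congr' ?_
      filter_upwards [eventually_gt_atTop i] with n hn
      have : ∏ i ∈ range n, (1 - ind (f i) x) = 0 := by
        apply prod_eq_zero (mem_range.2 hn)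
        simp [ind, Set.indicator, hi]
      rw [this]; simp
    · have h2 : ind (⋃ i, f i) x = 0 := by
        have : x ∉ ⋃ i, f i := by simpa using h
        simp [ind, Set.indicator, this]
      rw [h2]
      refine tendsto_const_nhds.congr fun n => ?_
      have : ∏ i ∈ range n, (1 - ind (f i) x) = 1 := by
        apply prod_eq_one
        intro j _
        have : x ∉ f j := fun hj => h ⟨j, hj⟩
        simp [ind, Set.indicator, this]
      rw [this]; simp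

theorem es_iff {μ : Measure Ω} {𝒞 : SA Ω} {s : Set Ω} :
    MeasurableSet[es μ 𝒞] s ↔ AM μ 𝒞 (ind s) := Iff.rfl

/-- transport of measurability along a map -/
theorem am_comp_of {Ω' : Type} [MeasurableSpace Ω'] {μ : Measure Ω} {μ' : Measure Ω'}
    {𝒞 : SA Ω} {𝒟 : SA Ω'} {R : Ω → Ω'} (hR : Measure.QuasiMeasurePreserving R μ μ')
    (h : @LE.le (MeasurableSpace Ω') _ 𝒟 (MeasurableSpace.map R (es μ 𝒞)))
    {f : Ω' → ℂ} (hf : AM μ' 𝒟 f) : AM μ 𝒞 (fun x => f (R x)) := by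
  have hg : StronglyMeasurable[𝒟] (hf.mk f) := hf.stronglyMeasurable_mk
  have hfg : (fun x => f (R x)) =ᵐ[μ] fun x => hf.mk f (R x) := hR.ae_eq hf.ae_eq_mk
  refine AEStronglyMeasurable.congr ?_ hfg.symm
  obtain ⟨F, S, hS, hT⟩ := @sm_approx Ω' 𝒟 _ hg
  refine am_tendsto (g := fun n x => ∑ y ∈ F n, y * ind (S n y) (R x)) (fun n => ?_)
    (Eventually.of_forall fun x => hT (R x))
  refine am_sum _ fun y _ => ?_
  refine AEStronglyMeasurable.const_mul ?_ y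
  exact h _ (hS n y)

theorem qmp {μ : Measure Ω} {R : Ω → Ω} (h : MeasurePreserving R μ μ) :
    Measure.QuasiMeasurePreserving R μ μ := h.quasiMeasurePreserving

theorem ia_le {μ : Measure Ω} {𝒜 𝒞 : SA Ω} {R : Ω → Ω}
    (h : ∀ f : Ω → ℂ, AM μ 𝒜 f → AM μ 𝒜 (fun x => f (R x)))
    (hle : @LE.le (MeasurableSpace Ω) _ 𝒜 𝒞) :
    @LE.le (MeasurableSpace Ω) _ 𝒜 (MeasurableSpace.map R (es μ 𝒞)) := by
  intro s hs
  show AM μ 𝒞 (ind (R ⁻¹' s))
  exact am_mono hle (h _ (am_ind μ hs))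

theorem ia_jo {μ : Measure Ω} {R R' : Ω → Ω} (hS : Sys μ R R') {𝒜 ℬ : SA Ω}
    (hA : IA μ 𝒜 R R') (hB : IA μ ℬ R R') : IA μ (jo 𝒜 ℬ) R R' := by
  refine ⟨jo_le hA.1 hB.1, fun f hf => ⟨?_, ?_⟩⟩
  · refine am_comp_of (qmp hS.mp) (jo_le ?_ ?_) hf
    · exact ia_le (fun f hf => (hA.2 f hf).1) (le_jo_left _ _)
    · exact ia_le (fun f hf => (hB.2 f hf).1) (le_jo_right _ _)
  · refine am_comp_of (qmp hS.mp') (jo_le ?_ ?_) hf
    · exact ia_le (fun f hf => (hA.2 f hf).2) (le_jo_left _ _)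
    · exact ia_le (fun f hf => (hB.2 f hf).2) (le_jo_right _ _)

theorem sg_le_map {μ : Measure Ω} {Φ : Set (Ω → ℂ)} {𝒞 : SA Ω} {R : Ω → Ω}
    (h : ∀ φ ∈ Φ, AM μ 𝒞 (fun x => φ (R x))) :
    @LE.le (MeasurableSpace Ω) _ (sg Φ) (MeasurableSpace.map R (es μ 𝒞)) := by
  refine sg_le fun φ hφ => ?_
  intro s hs
  show AM μ 𝒞 (ind (R ⁻¹' (φ ⁻¹' s)))
  exact am_sets (h φ hφ) hs

theorem unit_mul_conj {z : ℂ} (h : ‖z‖ = 1) : z * conj z = 1 := by
  rw [Complex.mul_conj, Complex.normSq_eq_norm_sq, h]; simp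

theorem ia_sg {μ : Measure Ω} {R R' : Ω → Ω} (hS : Sys μ R R') {𝒜 : SA Ω} {Φ : Set (Ω → ℂ)}
    (hA : IA μ 𝒜 R R') (hΦ : Grp μ Φ) (hI : ∀ φ ∈ Φ, Inc μ 𝒜 R φ) :
    IA μ (jo 𝒜 (sg Φ)) R R' := by
  have hm : @LE.le (MeasurableSpace Ω) _ (sg Φ) m0 := sg_le fun φ hφ => (hΦ.uf φ hφ).1
  refine ⟨jo_le hA.1 hm, fun f hf => ⟨?_, ?_⟩⟩
  · refine am_comp_of (qmp hS.mp) (jo_le ?_ ?_) hf
    · exact ia_le (fun f hf => (hA.2 f hf).1) (le_jo_left _ _)
    · refine sg_le_map fun φ hφ => ?_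
      have h1 : AM μ (jo 𝒜 (sg Φ)) (fun x => φ (R x) * conj (φ x)) :=
        am_mono (le_jo_left _ _) (hI φ hφ)
      have h2 : AM μ (jo 𝒜 (sg Φ)) φ := am_mono (le_jo_right _ _) (am_sg hφ)
      refine (h1.mul h2).congr ?_
      filter_upwards [(hΦ.uf φ hφ).2] with x hx
      simp only [Pi.mul_apply]
      rw [mul_assoc, mul_comm (conj (φ x)), unit_mul_conj hx, mul_one]
  · refine am_comp_of (qmp hS.mp') (jo_le ?_ ?_) hf
    · exact ia_le (fun f hf => (hA.2 f hf).2) (le_jo_left _ _)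
    · refine sg_le_map fun φ hφ => ?_
      have h1 : AM μ (jo 𝒜 (sg Φ)) (fun x => φ (R (R' x)) * conj (φ (R' x))) :=
        am_mono (le_jo_left _ _) ((hA.2 _ (hI φ hφ)).2)
      have h2 : AM μ (jo 𝒜 (sg Φ)) φ := am_mono (le_jo_right _ _) (am_sg hφ)
      have h3 : AM μ (jo 𝒜 (sg Φ)) (fun x => conj (φ (R (R' x)) * conj (φ (R' x)))) :=
        Complex.continuous_conj.comp_aestronglyMeasurable h1
      refine (h3.mul h2).congr ?_
      filter_upwards [(hΦ.uf φ hφ).2, hS.r] with x hx hx2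
      simp only [Pi.mul_apply]
      rw [hx2, map_mul, Complex.conj_conj, mul_comm (conj (φ x)), mul_assoc,
        mul_comm (conj (φ x)), unit_mul_conj hx, mul_one]

theorem st_IAJ : ST_IAJ := by
  intro Ω m0 μ _ R R' hS
  exact ⟨fun 𝒜 ℬ hA hB => ia_jo hS hA hB, fun 𝒜 Φ hA hΦ hI => ia_sg hS hA hΦ hI⟩

end Pool.Agent.Helper73.TWR
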