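import Pool.Agent.Helper73.TWR.Tool

/-!
Row VF1 of the sheet TW: the splitting of homogeneous functions.
-/

set_option linter.unusedSectionVars false

open MeasureTheory Filter Topology Finset
open scoped ComplexConjugate

namespace Pool.Agent.Helper73.TWR

open Pool.Agent.Helper98.TW
open Pool.Agent.Helper16.AZ (T mm)

/-! ### characters -/

section chars

variable {N : ℕ} {lev : Fin N → ℕ}

theorem ex_add (a b : Fin N → ℤ) (x : T N) : ex (a + b) x = ex a x * ex b x := by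
  unfold ex; exact UnitAddTorus.mFourier_add

theorem ex_neg (a : Fin N → ℤ) (x : T N) : ex (-a) x = conj (ex a x) := by
  unfold ex; exact UnitAddTorus.mFourier_neg

theorem ex_zero (x : T N) : ex (0 : Fin N → ℤ) x = 1 := by
  unfold ex; rw [UnitAddTorus.mFourier_zero]; rfl

theorem ex_mul_conj (a : Fin N → ℤ) (x : T N) : ex a x * conj (ex a x) = 1 := by
  rw [← ex_neg, ← ex_add, add_neg_cancel, ex_zero]

theorem ex_conj_mul (a : Fin N → ℤ) (x : T N) : conj (ex a x) * ex a x = 1 := by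
  rw [mul_comm, ex_mul_conj]

theorem ex_norm (a : Fin N → ℤ) (x : T N) : ‖ex a x‖ = 1 := by
  have h := ex_mul_conj a x
  have h1 : ‖ex a x‖ * ‖ex a x‖ = 1 := by
    have := congrArg norm h
    rw [norm_mul, RCLike.norm_conj, norm_one] at this
    exact this
  nlinarith [norm_nonneg (ex a x)]

theorem ex_meas (a : Fin N → ℤ) : Measurable (ex a : T N → ℂ) := by
  unfold ex; exact (UnitAddTorus.mFourier a).continuous.measurable

theorem uf_ex (a : Fin N → ℤ) : UF (mm N) (ex a : T N → ℂ) :=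
  ⟨ex_meas a, Eventually.of_forall fun x => ex_norm a x⟩

theorem la_sub {l : ℕ} {a b : Fin N → ℤ} (ha : la lev l a) (hb : la lev l b) :
    la lev l (a - b) := by
  intro i hi
  by_cases h : a i = 0
  · by_cases h' : b i = 0
    · exact absurd (by simp [h, h']) hi
    · exact hb i h'
  · exact ha i h

/-- homogeneous functions of different characters are orthogonal over the lower levels -/
theorem orth (hCHZ : ST_CHZ) {l : ℕ} {a b : Fin N → ℤ} (ha : la lev l a) (hb : la lev l b)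
    (hab : a ≠ b) {F φ : T N → ℂ} (hF : Integrable (fun x => F x * conj (φ x)) (mm N))
    (hFa : AM (mm N) (AL lev l) (fun x => conj (ex a x) * F x))
    (hφb : AM (mm N) (AL lev l) (fun x => conj (ex b x) * φ x)) :
    (mm N)[fun x => F x * conj (φ x)|AL lev l] =ᵐ[mm N] 0 := by
  set u : T N → ℂ := fun x => (conj (ex a x) * F x) * conj (conj (ex b x) * φ x) with hu
  have hu2 : ∀ x, u x = conj (ex (a - b) x) * (F x * conj (φ x)) := by
    intro x
    have : ex (a - b) x = ex a x * conj (ex b x) := by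
      rw [sub_eq_add_neg, ex_add, ex_neg]
    rw [this]
    simp only [hu, map_mul, Complex.conj_conj]
    ring
  have hui : Integrable u (mm N) := by
    have h1 : Integrable (fun x => conj (ex (a - b) x) * (F x * conj (φ x))) (mm N) :=
      (uf_ex (a - b)).conj.ab.int_mul hF
    exact h1.congr (Eventually.of_forall fun x => (hu2 x).symm)
  have huA : AM (mm N) (AL lev l) u := am_mul hFa (am_conj hφb)
  have h := hCHZ N lev l (a - b) (sub_ne_zero.2 hab) (la_sub ha hb) u hui huA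
  have h2 : (fun x => ex (a - b) x * u x) = fun x => F x * conj (φ x) := by
    funext x
    rw [hu2, ← mul_assoc, ex_mul_conj, one_mul]
  rw [h2] at h
  exact h

end chars

/-! ### invariance of inverse images -/

theorem ia_cm (hPFC : ST_PFC) {Ω Ω' : Type} [MeasurableSpace Ω] [MeasurableSpace Ω']
    {μ : Measure Ω} [IsProbabilityMeasure μ] {μ' : Measure Ω'} [IsProbabilityMeasure μ']
    {π : Ω → Ω'} (hπ : MeasurePreserving π μ μ') {R R' : Ω → Ω} {S S' : Ω' → Ω'}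
    (hR : Sys μ R R') (hS : Sys μ' S S') (h1 : ∀ x, π (R x) = S (π x))
    (h2 : ∀ x, π (R' x) = S' (π x)) {𝒜 : SA Ω'} (hA : IA μ' 𝒜 S S') :
    IA μ (cm π 𝒜) R R' := by
  have key : ∀ {R : Ω → Ω} {S : Ω' → Ω'}, MeasurePreserving R μ μ → MeasurePreserving S μ' μ' →
      (∀ x, π (R x) = S (π x)) → (∀ F : Ω' → ℂ, AM μ' 𝒜 F → AM μ' 𝒜 (fun x => F (S x))) →
      ∀ G : Ω → ℂ, AM μ (cm π 𝒜) G → AM μ (cm π 𝒜) (fun x => G (R x)) := by
    intro R S hR hS h1 hA' G hG
    obtain ⟨F, hFm, hF, hGF⟩ := (hPFC Ω Ω' μ μ' π 𝒜 hπ hA.1).2.2 G hG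
    have h3 : AM μ (cm π 𝒜) (fun x => (fun y => F (S y)) (π x)) :=
      ((hPFC Ω Ω' μ μ' π 𝒜 hπ hA.1).2.1 (fun y => F (S y))
        (hFm.comp hS.measurable).aestronglyMeasurable).2 (hA' F hF)
    refine am_congr h3 ?_
    filter_upwards [ae_comp hR hGF] with x hx
    rw [hx, h1]
  refine ⟨lm_cm hπ.measurable hA.1, fun G hG => ⟨?_, ?_⟩⟩
  · exact key hR.mp hS.mp h1 (fun F hF => (hA.2 F hF).1) G hG
  · exact key hR.mp' hS.mp' h2 (fun F hF => (hA.2 F hF).2) G hG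

theorem ia_top {Ω : Type} [m0 : MeasurableSpace Ω] {μ : Measure Ω} {R R' : Ω → Ω}
    (hR : Sys μ R R') : IA μ m0 R R' :=
  ⟨fun _ h => h, fun _ hf => ⟨hf.comp_quasiMeasurePreserving hR.mp.quasiMeasurePreserving,
    hf.comp_quasiMeasurePreserving hR.mp'.quasiMeasurePreserving⟩⟩

section main

variable {N : ℕ} {lev : Fin N → ℕ} {f f' : Fin N → T N → U}

/-- orthogonality to the classes of the character `a` gives orthogonality to the hull -/
theorem lemB (hDNS : ST_DNS) (hCHZ : ST_CHZ) {p l : ℕ} {C : SA (T N)}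
    (hC : LQ (mm N) C (AL lev l)) (hCl : Lm C) (hAl : Lm (AL lev l)) {W : Set (T N → ℂ)}
    (hW : Grp (mm N) W) (hWP : W ⊆ PP lev f p C l) {a : Fin N → ℤ} (ha : la lev l a)
    {F : T N → ℂ} (hF : Integrable F (mm N))
    (hFa : AM (mm N) (AL lev l) (fun x => conj (ex a x) * F x))
    (h0 : ∀ ψ ∈ W, ψ ∈ PA lev f p C l a → (mm N)[fun x => conj (ψ x) * F x|C] =ᵐ[mm N] 0) :
    (mm N)[F|jo C (sg W)] =ᵐ[mm N] 0 := by
  have hC' : Lm (jo C (sg W)) := lm_jo hCl (lm_sg fun φ hφ => (hW.uf φ hφ).1)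
  refine hDNS (T N) (mm N) C W _ hCl hW ce_int ce_am fun φ hφ => ?_
  have hφu := hW.uf φ hφ
  have hφA : AM (mm N) (jo C (sg W)) φ := am_jo_right (am_sg hφ)
  have hi : Integrable (fun x => conj (φ x) * F x) (mm N) := hφu.conj.ab.int_mul hF
  have e1 : (mm N)[fun x => conj (φ x) * F x|jo C (sg W)] =ᵐ[mm N]
      fun x => conj (φ x) * ((mm N)[F|jo C (sg W)]) x := pullb (am_conj hφA) hφu.conj.ab hF
  have e2 := ce_tower hCl hC' lq_jo_left hi
  have e3 : (mm N)[fun x => conj (φ x) * F x|C] =ᵐ[mm N] 0 := by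
    obtain ⟨b, hb, hφb⟩ := (hWP hφ).2.1
    by_cases hab : a = b
    · subst hab
      exact h0 φ hφ ⟨hφu, hφb, (hWP hφ).2.2⟩
    · have hi' : Integrable (fun x => F x * conj (φ x)) (mm N) :=
        hi.congr (Eventually.of_forall fun x => mul_comm _ _)
      have h1 := orth hCHZ ha hb hab hi' hFa hφb
      have h2 := ce_zero_lq hCl hAl hC hi' h1
      refine (ce_congr ?_).trans h2
      exact Eventually.of_forall fun x => mul_comm _ _
  have e4 : (fun x => ((mm N)[F|jo C (sg W)]) x * conj (φ x)) =ᵐ[mm N]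
      (mm N)[fun x => conj (φ x) * F x|jo C (sg W)] := by
    filter_upwards [e1] with x hx
    rw [hx, mul_comm]
  exact ((ce_congr e4).trans e2).trans e3

/-- the sigma algebra of the second coordinate is invariant -/
theorem ia_BB (hPFC : ST_PFC) (hMPS : ST_MPS) (hTRM : ST_TRM) {p q : ℕ}
    {κ : Measure (T N × T N)} (hTI : TI lev f f') (hJN : JN f p q κ) :
    IA κ (BB N) (Prod.map (SS f)^[p] (SS f)^[q]) (Prod.map (SS f')^[p] (SS f')^[q]) := by
  have := hJN.prob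
  have mp2 : MeasurePreserving Prod.snd κ (mm N) := ⟨measurable_snd, hJN.snd⟩
  have hSκ := (hTRM N lev f f' p q κ hTI hJN 0 0).2.2.2.1
  exact ia_cm hPFC mp2 hSκ (hMPS N lev f f' hTI q) (fun _ => rfl) (fun _ => rfl)
    (ia_top (hMPS N lev f f' hTI q))

theorem ia_C1 (hPFC : ST_PFC) (hMPS : ST_MPS) (hTRM : ST_TRM) {p q : ℕ}
    {κ : Measure (T N × T N)} {C : SA (T N)} (hTI : TI lev f f') (hJN : JN f p q κ)
    (hia : IA (mm N) C (SS f)^[p] (SS f')^[p]) :
    IA κ (cm Prod.fst C) (Prod.map (SS f)^[p] (SS f)^[q])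
      (Prod.map (SS f')^[p] (SS f')^[q]) := by
  have := hJN.prob
  have mp1 : MeasurePreserving Prod.fst κ (mm N) := ⟨measurable_fst, hJN.fst⟩
  have hSκ := (hTRM N lev f f' p q κ hTI hJN 0 0).2.2.2.1
  exact ia_cm hPFC mp1 hSκ (hMPS N lev f f' hTI p) (fun _ => rfl) (fun _ => rfl) hia

theorem lm_BB : Lm (BB N) := lm_cm measurable_snd (fun _ h => h)

/-- invisible classes are orthogonal to the second coordinate and to the hull -/
theorem key4 (hLZ : ST_LZ) (hLT : ST_LT) (hIAJ : ST_IAJ) (hPFC : ST_PFC) (hTRM : ST_TRM)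
    (hMPS : ST_MPS) {p q : ℕ} {κ : Measure (T N × T N)} {C : SA (T N)} {l : ℕ}
    (hTI : TI lev f f') (hErg : Ergodic (SS f)^[p] (mm N)) (hJN : JN f p q κ)
    (hia : IA (mm N) C (SS f)^[p] (SS f')^[p]) (hW : Grp (mm N) (VS lev f p q κ C l))
    {a : Fin N → ℤ} (ha : la lev l a) {ψ : T N → ℂ} (hψ : ψ ∈ PA lev f p C l a)
    {c : T N → ℂ} (hcA : AM (mm N) C c) (hc : AB (mm N) c) :
    κ[fun z => ψ z.1 * c z.1|BB N] =ᵐ[κ]
      κ[fun z => ((mm N)[fun x => ψ x * c x|jo C (sg (VS lev f p q κ C l))]) z.1|BB N] := by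
  have := hJN.prob
  set W := VS lev f p q κ C l with hWd
  have mp1 : MeasurePreserving Prod.fst κ (mm N) := ⟨measurable_fst, hJN.fst⟩
  have hS := hMPS N lev f f' hTI p
  have hSκ := (hTRM N lev f f' p q κ hTI hJN 0 0).2.2.2.1
  have hCl : Lm C := hia.1
  have hC' : Lm (jo C (sg W)) := lm_jo hCl (lm_sg fun φ hφ => (hW.uf φ hφ).1)
  have hC'ia : IA (mm N) (jo C (sg W)) (SS f)^[p] (SS f')^[p] :=
    (hIAJ (T N) (mm N) _ _ hS).2 C W hia hW (fun φ h => h.1.2.2)
  have hψc : AB (mm N) (fun x => ψ x * c x) := hψ.1.ab.mul hc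
  have hcC' : AM (mm N) (jo C (sg W)) c := am_jo_left hcA
  by_cases hψW : ψ ∈ W
  · -- visible
    have h1 : AM (mm N) (jo C (sg W)) (fun x => ψ x * c x) :=
      am_mul (am_jo_right (am_sg hψW)) hcC'
    have h2 := ce_of_am hC' hψc.int h1
    refine (ce_congr ?_).symm
    exact mp1.quasiMeasurePreserving.ae h2
  · -- invisible
    have hnv : ¬ Vis κ C ψ := by
      intro h
      apply hψW
      refine ⟨⟨hψ.1, ⟨a, ha, hψ.2.1⟩, hψ.2.2⟩, 1, le_rfl, Nat.coprime_one_left q, ?_⟩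
      simpa using h
    have hna : ¬ AM (mm N) (jo C (sg W)) ψ := by
      intro h
      obtain ⟨φ, hφ, hφ2⟩ := hLT (T N) (mm N) _ _ C W ψ hS hErg hia hW (fun φ h => h.1.2.2)
        hψ.1 h hψ.2.2
      obtain ⟨hφP, M, hM, hMq, hφV⟩ := hφ
      apply hψW
      refine ⟨⟨hψ.1, ⟨a, ha, hψ.2.1⟩, hψ.2.2⟩, M, hM, hMq, ?_⟩
      have h3 : AM κ (jo (BB N) (cm Prod.fst C)) (fun z => (ψ z.1 * conj (φ z.1)) ^ M) := by
        refine am_pow (am_jo_right ?_) M
        exact ((hPFC _ _ κ (mm N) Prod.fst C mp1 hCl).2.1 (fun x => ψ x * conj (φ x))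
          (hψ.1.mul hφP.1.conj).1.aestronglyMeasurable).2 hφ2
      have h4 := am_mul h3 hφV
      refine am_congr h4 ?_
      filter_upwards [mp1.quasiMeasurePreserving.ae hφP.1.conj_mul] with z hz
      rw [← mul_pow, mul_assoc, hz, mul_one]
    have hz1 : (mm N)[ψ|jo C (sg W)] =ᵐ[mm N] 0 := by
      rcases hLZ (T N) (mm N) _ _ (jo C (sg W)) ψ hS hErg hC'ia hψ.1
        (Inc.lq lq_jo_left hψ.2.2) with h | h
      · exact h
      · exact absurd h hna
    have hz2 : (mm N)[fun x => ψ x * c x|jo C (sg W)] =ᵐ[mm N] 0 := by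
      have h1 := ce_mul_zero hcC' (hc.int_mul hψ.1.ab.int) hψ.1.ab.int hz1
      refine (ce_congr ?_).trans h1
      exact Eventually.of_forall fun x => mul_comm _ _
    have hVl : Lm (jo (BB N) (cm Prod.fst C)) := lm_jo lm_BB (lm_cm measurable_fst hCl)
    have hVia : IA κ (jo (BB N) (cm Prod.fst C)) (Prod.map (SS f)^[p] (SS f)^[q])
        (Prod.map (SS f')^[p] (SS f')^[q]) :=
      (hIAJ _ κ _ _ hSκ).1 _ _ (ia_BB hPFC hMPS hTRM hTI hJN) (ia_C1 hPFC hMPS hTRM hTI hJN hia)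
    have hψκ : UF κ (fun z : T N × T N => ψ z.1) := hψ.1.comp mp1
    have hz3 : κ[fun z => ψ z.1|jo (BB N) (cm Prod.fst C)] =ᵐ[κ] 0 := by
      have hinc : Inc κ (jo (BB N) (cm Prod.fst C)) (Prod.map (SS f)^[p] (SS f)^[q])
          (fun z : T N × T N => ψ z.1) := by
        refine am_jo_right ?_
        exact ((hPFC _ _ κ (mm N) Prod.fst C mp1 hCl).2.1
          (fun x => ψ ((SS f)^[p] x) * conj (ψ x))
          ((hψ.1.comp hS.mp).mul hψ.1.conj).1.aestronglyMeasurable).2 hψ.2.2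
      rcases hLZ _ κ _ _ (jo (BB N) (cm Prod.fst C)) (fun z => ψ z.1) hSκ hJN.erg hVia hψκ hinc
        with h | h
      · exact h
      · exact absurd h hnv
    have hcκ : AB κ (fun z : T N × T N => c z.1) := hc.comp mp1
    have hcκA : AM κ (jo (BB N) (cm Prod.fst C)) (fun z : T N × T N => c z.1) := by
      refine am_jo_right ?_
      exact ((hPFC _ _ κ (mm N) Prod.fst C mp1 hCl).2.1 c hc.1).2 hcA
    have hz4 : κ[fun z => c z.1 * ψ z.1|jo (BB N) (cm Prod.fst C)] =ᵐ[κ] 0 :=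
      ce_mul_zero hcκA (hcκ.int_mul hψκ.ab.int) hψκ.ab.int hz3
    have hz5 : κ[fun z => c z.1 * ψ z.1|BB N] =ᵐ[κ] 0 :=
      ce_zero_lq lm_BB hVl lq_jo_left (hcκ.int_mul hψκ.ab.int) hz4
    have hz6 : κ[fun z => ψ z.1 * c z.1|BB N] =ᵐ[κ] 0 := by
      refine (ce_congr ?_).trans hz5
      exact Eventually.of_forall fun x => mul_comm _ _
    have hz7 : κ[fun z => ((mm N)[fun x => ψ x * c x|jo C (sg W)]) z.1|BB N] =ᵐ[κ]
        κ[fun _ => (0 : ℂ)|BB N] := ce_congr (mp1.quasiMeasurePreserving.ae hz2)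
    have hz8 : κ[(fun _ : T N × T N => (0 : ℂ))|BB N] = 0 := condExp_zero
    refine hz6.trans ?_
    rw [hz8] at hz7
    exact hz7.symm

/-- the function of the first coordinate which represents `k` -/
theorem exists_K (hPFC : ST_PFC) {κ : Measure (T N × T N)} [IsProbabilityMeasure κ]
    (mp1 : MeasurePreserving Prod.fst κ (mm N)) {k : T N × T N → ℂ} (hk : AB κ k) :
    ∃ K : T N → ℂ, AB (mm N) K ∧ ∀ u : T N → ℂ, AB (mm N) u →
      ∫ z, u z.1 * k z ∂κ = ∫ x, u x * K x ∂(mm N) := by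
  let top : SA (T N) := (inferInstance : MeasurableSpace (T N))
  have htop : Lm top := fun _ h => h
  obtain ⟨K, hKm, _, hK⟩ := (hPFC _ _ κ (mm N) Prod.fst top mp1 htop).2.2
    (κ[k|cm Prod.fst top]) ce_am
  have hl : Lm (cm (Prod.fst : T N × T N → T N) top) := lm_cm measurable_fst htop
  have hKab : AB (mm N) K := by
    refine ⟨hKm.aestronglyMeasurable, ?_⟩
    obtain ⟨B, hB⟩ := (hk.ce hl).2
    refine ⟨B, ?_⟩
    rw [← mp1.map_eq]
    refine (ae_map_iff mp1.measurable.aemeasurable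
      (measurableSet_le hKm.norm measurable_const)).2 ?_
    filter_upwards [hB, hK] with z hz hz2
    rw [← hz2]; exact hz
  refine ⟨K, hKab, fun u hu => ?_⟩
  have huA : AM κ (cm Prod.fst top) (fun z : T N × T N => u z.1) :=
    ((hPFC _ _ κ (mm N) Prod.fst top mp1 htop).2.1 u hu.1).2 hu.1
  have e1 := int_ce hl huA (hu.comp mp1) hk.int
  rw [← e1]
  have e2 : ∫ z, u z.1 * (κ[k|cm Prod.fst top]) z ∂κ = ∫ z, (fun x => u x * K x) z.1 ∂κ := by
    refine integral_congr_ae ?_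
    filter_upwards [hK] with z hz
    rw [hz]
  rw [e2]
  conv_rhs => rw [← mp1.map_eq]
  rw [integral_map mp1.measurable.aemeasurable]
  rw [mp1.map_eq]
  exact (hu.mul hKab).1

/-- the group of classes of the levels `< l` -/
def Ph (lev : Fin N → ℕ) (f : Fin N → T N → U) (p : ℕ) (C : SA (T N)) (l : ℕ) :
    Set (T N → ℂ) :=
  {u | UF (mm N) u ∧ AM (mm N) (AL lev l) u ∧ Inc (mm N) C (SS f)^[p] u}

theorem grp_Ph {p : ℕ} {C : SA (T N)} {l : ℕ} : Grp (mm N) (Ph lev f p C l) where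
  uf := fun _ h => h.1
  one := ⟨uf_one, am_const 1, inc_one⟩
  mul := fun _ h _ h' => ⟨h.1.mul h'.1, am_mul h.2.1 h'.2.1, h.2.2.mul h'.2.2⟩
  inv := fun _ h => ⟨h.1.conj, am_conj h.2.1, h.2.2.conj⟩

/-- `ψ₁ conj u` belongs to the classes of the character `a` -/
theorem pa_mul {p : ℕ} {C : SA (T N)} {l : ℕ} {a : Fin N → ℤ} {ψ u : T N → ℂ}
    (hψ : ψ ∈ PA lev f p C l a) (hu : u ∈ Ph lev f p C l) :
    (fun x => ψ x * conj (u x)) ∈ PA lev f p C l a := by
  refine ⟨hψ.1.mul hu.1.conj, ?_, hψ.2.2.mul hu.2.2.conj⟩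
  refine am_congr (am_mul hψ.2.1 (am_conj hu.2.1)) (Eventually.of_forall fun x => ?_)
  show conj (ex a x) * ψ x * conj (u x) = conj (ex a x) * (ψ x * conj (u x))
  ring

theorem pa_div {p : ℕ} {C : SA (T N)} {l : ℕ} {a : Fin N → ℤ} {ψ ψ' : T N → ℂ}
    (hψ : ψ ∈ PA lev f p C l a) (hψ' : ψ' ∈ PA lev f p C l a) :
    (fun x => conj (ψ x) * ψ' x) ∈ Ph lev f p C l := by
  refine ⟨hψ.1.conj.mul hψ'.1, ?_, hψ.2.2.conj.mul hψ'.2.2⟩
  refine am_congr (am_mul (am_conj hψ.2.1) hψ'.2.1) (Eventually.of_forall fun x => ?_)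
  show conj (conj (ex a x) * ψ x) * (conj (ex a x) * ψ' x) = conj (ψ x) * ψ' x
  rw [map_mul, Complex.conj_conj]
  calc ex a x * conj (ψ x) * (conj (ex a x) * ψ' x)
      = (ex a x * conj (ex a x)) * (conj (ψ x) * ψ' x) := by ring
    _ = _ := by rw [ex_mul_conj, one_mul]

/-- the component of `D = C ∨ Φ` is determined by the hull, for the second coordinate -/
theorem key5 (hDNS : ST_DNS) (hLZ : ST_LZ) (hLT : ST_LT) (hIAJ : ST_IAJ) (hPFC : ST_PFC)
    (hTRM : ST_TRM) (hMPS : ST_MPS) {p q : ℕ} {κ : Measure (T N × T N)} {C : SA (T N)} {l : ℕ}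
    (hTI : TI lev f f') (hErg : Ergodic (SS f)^[p] (mm N)) (hJN : JN f p q κ)
    (hia : IA (mm N) C (SS f)^[p] (SS f')^[p]) (hW : Grp (mm N) (VS lev f p q κ C l))
    {a : Fin N → ℤ} (ha : la lev l a) {ψ : T N → ℂ} (hψ : ψ ∈ PA lev f p C l a)
    {h : T N → ℂ} (hh : AB (mm N) h) {F₁ : T N → ℂ}
    (hF₁ : F₁ =ᵐ[mm N] fun x => ψ x * ((mm N)[h|jo C (sg (Ph lev f p C l))]) x) :
    κ[fun z => F₁ z.1|BB N] =ᵐ[κ]
      κ[fun z => ((mm N)[F₁|jo C (sg (VS lev f p q κ C l))]) z.1|BB N] := by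
  have := hJN.prob
  have hmp1 : MeasurePreserving Prod.fst κ (mm N) := ⟨measurable_fst, hJN.fst⟩
  have hCl : Lm C := hia.1
  set W := VS lev f p q κ C l with hWd
  set Φ := Ph lev f p C l with hΦd
  have hΦ : Grp (mm N) Φ := grp_Ph
  have hC' : Lm (jo C (sg W)) := lm_jo hCl (lm_sg fun φ hφ => (hW.uf φ hφ).1)
  have hD : Lm (jo C (sg Φ)) := lm_jo hCl (lm_sg fun φ hφ => (hΦ.uf φ hφ).1)
  have hEh : AB (mm N) ((mm N)[h|jo C (sg Φ)]) := hh.ce hD
  have hF₁b : AB (mm N) F₁ := (hψ.1.ab.mul hEh).congr hF₁.symm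
  have hGb : AB (mm N) ((mm N)[F₁|jo C (sg W)]) := hF₁b.ce hC'
  -- test against indicators of sets of the second coordinate
  symm
  refine ce_unique lm_BB (hF₁b.comp hmp1).int ce_int ce_am fun s hs => ?_
  have hk : AB κ (ind s) := ab_ind lm_BB hs
  rw [int_ce lm_BB (am_ind κ hs) hk (hGb.comp hmp1).int]
  obtain ⟨K, hK, hKk⟩ := exists_K hPFC hmp1 hk
  have e1 : ∀ u : T N → ℂ, AB (mm N) u → ∫ z, ind s z * u z.1 ∂κ = ∫ x, u x * K x ∂(mm N) := by
    intro u hu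
    rw [← hKk u hu]
    exact integral_congr_ae (Eventually.of_forall fun z => mul_comm _ _)
  rw [e1 _ hGb, e1 _ hF₁b, ce_symm hC' hF₁b hK]
  -- Θ₀
  set K' : T N → ℂ := (mm N)[K|jo C (sg W)] with hK'
  have hK'b : AB (mm N) K' := hK.ce hC'
  set Θ : T N → ℂ := fun x => ψ x * (K x - K' x) with hΘ
  have hΘb : AB (mm N) Θ := hψ.1.ab.mul (hK.sub hK'b)
  have hΘ0 : (mm N)[Θ|jo C (sg Φ)] =ᵐ[mm N] 0 := by
    refine hDNS (T N) (mm N) C Φ _ hCl hΦ ce_int ce_am fun u hu => ?_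
    have hub := hu.1.conj.ab
    have huD : AM (mm N) (jo C (sg Φ)) (fun x => conj (u x)) :=
      am_conj (am_jo_right (am_sg hu))
    have a1 := pullb huD hub hΘb.int
    have a2 := ce_tower hCl hD lq_jo_left (hub.mul hΘb).int
    have a3 : (mm N)[fun x => conj (u x) * Θ x|C] =ᵐ[mm N] 0 := by
      refine ce_zero hCl (hub.mul hΘb).int fun t ht => ?_
      have hψ' := pa_mul hψ hu
      have hc : AB (mm N) (ind t) := ab_ind hCl ht
      have hcA : AM (mm N) C (ind t) := am_ind _ ht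
      have b1 := key4 hLZ hLT hIAJ hPFC hTRM hMPS hTI hErg hJN hia hW ha hψ' hcA hc
      set v : T N → ℂ := fun x => ψ x * conj (u x) * ind t x with hv
      have hvb : AB (mm N) v := (hψ.1.ab.mul hub).mul hc
      have b2 : ∫ x, v x * K x ∂(mm N) = ∫ x, ((mm N)[v|jo C (sg W)]) x * K x ∂(mm N) := by
        rw [← e1 _ hvb, ← e1 _ (hvb.ce hC')]
        rw [← int_ce lm_BB (am_ind κ hs) hk (hvb.comp hmp1).int,
          ← int_ce lm_BB (am_ind κ hs) hk ((hvb.ce hC').comp hmp1).int]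
        refine integral_congr_ae ?_
        filter_upwards [b1] with z hz
        rw [hz]
      rw [ce_symm hC' hvb hK] at b2
      have b3 : ∀ x, ind t x * (conj (u x) * Θ x) = v x * K x - v x * K' x := by
        intro x
        simp only [hΘ, hv]
        ring
      rw [integral_congr_ae (Eventually.of_forall b3),
        integral_sub (hvb.mul hK).int (hvb.mul hK'b).int, b2, sub_self]
    have a4 : (fun x => ((mm N)[Θ|jo C (sg Φ)]) x * conj (u x)) =ᵐ[mm N]
        (mm N)[fun x => conj (u x) * Θ x|jo C (sg Φ)] := by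
      filter_upwards [a1] with x hx
      rw [hx, mul_comm]
    exact ((ce_congr a4).trans a2).trans a3
  have c1 : ∫ x, ((mm N)[h|jo C (sg Φ)]) x * Θ x ∂(mm N) = 0 := by
    rw [ce_symm hD hh hΘb]
    have : (fun x => h x * ((mm N)[Θ|jo C (sg Φ)]) x) =ᵐ[mm N] fun _ => 0 := by
      filter_upwards [hΘ0] with x hx
      rw [hx]; simp
    rw [integral_congr_ae this]; simp
  have c2 : (fun x => ((mm N)[h|jo C (sg Φ)]) x * Θ x) =ᵐ[mm N]
      fun x => F₁ x * K x - F₁ x * K' x := by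
    filter_upwards [hF₁] with x hx
    rw [hx]; simp only [hΘ]; ring
  rw [integral_congr_ae c2, integral_sub (hF₁b.mul hK).int (hF₁b.mul hK'b).int] at c1
  exact (sub_eq_zero.1 c1).symm

end main

theorem st_VF1 (hDNS : ST_DNS) (hLZ : ST_LZ) (hLT : ST_LT) (hHAA : ST_HAA) (hCHZ : ST_CHZ)
    (hIAJ : ST_IAJ) (hPFC : ST_PFC) (hTRM : ST_TRM) (hALS : ST_ALS) (hMPS : ST_MPS) :
    ST_VF1 := by
  intro N lev f f' p q κ C l a F hTI hEG hp hq hpq hJN hHP ha hF hFa
  have := hJN.prob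
  have hS := hMPS N lev f f' hTI p
  have hErg : Ergodic (SS f)^[p] (mm N) := (hEG p hp.one_lt.le).1
  have hCl : Lm C := hHP.ia.1
  have hAl : Lm (AL lev l) := (hALS N lev).2.2.1 l
  have hia : IA (mm N) C (SS f)^[p] (SS f')^[p] := hHP.ia.iterate p
  have hmp1 : MeasurePreserving Prod.fst κ (mm N) := ⟨measurable_fst, hJN.fst⟩
  have hW : Grp (mm N) (VS lev f p q κ C l) := (hHAA N lev f f' p q κ C l hTI hHP).1
  have hWP : VS lev f p q κ C l ⊆ PP lev f p C l := fun ψ h => h.1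
  have hC' : Lm (jo C (sg (VS lev f p q κ C l))) :=
    lm_jo hCl (lm_sg fun φ hφ => (hW.uf φ hφ).1)
  have hFb : AB (mm N) F := hF.ab
  by_cases hne : ∃ ψ₁, ψ₁ ∈ PA lev f p C l a
  · obtain ⟨ψ₁, hψ₁⟩ := hne
    set Φ := Ph lev f p C l with hΦd
    have hΦ : Grp (mm N) Φ := grp_Ph
    have hD : Lm (jo C (sg Φ)) := lm_jo hCl (lm_sg fun φ hφ => (hΦ.uf φ hφ).1)
    have hDq : LQ (mm N) (jo C (sg Φ)) (AL lev l) := lq_jo hHP.le (lq_sg fun u hu => hu.2.1)
    set h : T N → ℂ := fun x => conj (ψ₁ x) * F x with hh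
    have hhb : AB (mm N) h := hψ₁.1.conj.ab.mul hFb
    set Eh : T N → ℂ := (mm N)[h|jo C (sg Φ)] with hEh
    have hEhb : AB (mm N) Eh := hhb.ce hD
    have hEhA : AM (mm N) (jo C (sg Φ)) Eh := ce_am
    obtain ⟨F₁, hF₁, hF₁e⟩ := (hψ₁.1.ab.mul hEhb).bf
    set F₂ : T N → ℂ := fun x => F x - F₁ x with hF₂
    have hF₂b : BF F₂ := bf_sub hF hF₁
    have hF₂e : F₂ =ᵐ[mm N] fun x => ψ₁ x * (h x - Eh x) := by
      filter_upwards [hF₁e, hψ₁.1.mul_conj] with x hx hx2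
      have e1 : F x = ψ₁ x * h x := by
        simp only [hh]
        rw [← mul_assoc, hx2, one_mul]
      simp only [hF₂]
      rw [hx, e1]; ring
    have hdiff : (mm N)[fun x => h x - Eh x|jo C (sg Φ)] =ᵐ[mm N] 0 := by
      have h1 := ce_sub (𝒜 := jo C (sg Φ)) hhb.int hEhb.int
      have h2 := ce_of_am hD hEhb.int hEhA
      filter_upwards [h1, h2] with x hx hx2
      rw [hx, hx2]; simp [hEh]
    have h0 : ∀ ψ ∈ PA lev f p C l a,
        (mm N)[fun x => conj (ψ x) * F₂ x|C] =ᵐ[mm N] 0 := by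
      intro ψ hψ
      have hu := pa_div hψ hψ₁
      have hub := hu.1.ab
      have h1 : (mm N)[fun x => (conj (ψ x) * ψ₁ x) * (h x - Eh x)|jo C (sg Φ)] =ᵐ[mm N] 0 :=
        ce_mul_zero (am_jo_right (am_sg hu)) (hub.int_mul (hhb.sub hEhb).int)
          (hhb.sub hEhb).int hdiff
      have h2 := ce_zero_lq hCl hD lq_jo_left (hub.mul (hhb.sub hEhb)).int h1
      refine (ce_congr ?_).trans h2
      filter_upwards [hF₂e] with x hx
      rw [hx]; ring
    have hF₂a : AM (mm N) (AL lev l) (fun x => conj (ex a x) * F₂ x) := by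
      have h1 : AM (mm N) (AL lev l) (fun x => conj (ex a x) * ψ₁ x * Eh x) :=
        am_mul hψ₁.2.1 (hDq _ hEhA)
      refine am_congr (am_sub hFa h1) ?_
      filter_upwards [hF₁e] with x hx
      simp only [hF₂]
      rw [hx]; ring
    refine ⟨F₁, F₂, hF₁, hF₂b, Eventually.of_forall fun x => ?_, hF₂a, h0, ?_, ?_⟩
    · simp only [hF₂]; ring
    · have e1 : ∫ x, ‖F₂ x‖ ^ 2 ∂(mm N) = ∫ x, ‖h x - Eh x‖ ^ 2 ∂(mm N) := by
        refine integral_congr_ae ?_
        filter_upwards [hF₂e, hψ₁.1.2] with x hx hx2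
        rw [hx, norm_mul, hx2, one_mul]
      have e2 : ∫ x, ‖F x‖ ^ 2 ∂(mm N) = ∫ x, ‖h x‖ ^ 2 ∂(mm N) := by
        refine integral_congr_ae ?_
        filter_upwards [hψ₁.1.2] with x hx2
        simp only [hh]
        rw [norm_mul, RCLike.norm_conj, hx2, one_mul]
      rw [e1, e2]
      exact sub_ce_sq hD hhb.memLp
    · intro G hG hGe
      have k5 := key5 hDNS hLZ hLT hIAJ hPFC hTRM hMPS hTI hErg hJN hia hW ha hψ₁ hhb hF₁e
      refine k5.trans (ce_congr ?_)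
      have e3 : (mm N)[F₂|jo C (sg (VS lev f p q κ C l))] =ᵐ[mm N] 0 :=
        lemB hDNS hCHZ hHP.le hCl hAl hW hWP ha hF₂b.ab.int hF₂a (fun ψ _ hψ => h0 ψ hψ)
      have e4 := ce_add (𝒜 := jo C (sg (VS lev f p q κ C l))) (μ := mm N) hF₁.ab.int
        hF₂b.ab.int
      have e5 : F =ᵐ[mm N] fun x => F₁ x + F₂ x :=
        Eventually.of_forall fun x => by simp only [hF₂]; ring
      have e6 := ce_congr (𝒜 := jo C (sg (VS lev f p q κ C l))) e5
      have e7 : (mm N)[F₁|jo C (sg (VS lev f p q κ C l))] =ᵐ[mm N] G := by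
        filter_upwards [hGe, e3, e4, e6] with x h1 h2 h3 h4
        rw [h1, h4, h3, h2]; simp
      exact hmp1.quasiMeasurePreserving.ae e7
  · refine ⟨fun _ => 0, F, bf_zero, hF, Eventually.of_forall fun x => by simp, hFa, ?_, le_rfl,
      ?_⟩
    · intro ψ hψ
      exact absurd ⟨ψ, hψ⟩ hne
    · intro G hG hGe
      have e3 : (mm N)[F|jo C (sg (VS lev f p q κ C l))] =ᵐ[mm N] 0 :=
        lemB hDNS hCHZ hHP.le hCl hAl hW hWP ha hFb.int hFa
          (fun ψ _ hψ => absurd ⟨ψ, hψ⟩ hne)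
      refine ce_congr ?_
      have : ∀ᵐ x ∂(mm N), (0 : ℂ) = G x := by
        filter_upwards [hGe, e3] with x h1 h2
        rw [h1, h2]; rfl
      exact hmp1.quasiMeasurePreserving.ae this

end Pool.Agent.Helper73.TWR
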